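import Pool.Agent.N133.TB.TwF

/-!
MP_a405d2_ag, Q1: a canonical isotropic distribution on symplectic varieties.

`NormalModel y` (`Pool/Agent/Y172/Defs.lean`): `y` is the generic point, in homogeneous coordinates,
of a normal projective variety `X` with function field `K`; `IsPrimeDivisor y P` says that the
valuation `P` of `K` is a prime divisor of `X`. Divisors are given by their multiplicities.

`GenBy y n 0 r η` (`Pool/Agent/N133/TB/TwA.lean`): `r K_X` is trivial, generated by the
`r`-pluricanonical form `η`. `IsTensorV y 0 L T`: the `K`-multilinear form `T` on the rational vector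
fields is a holomorphic tensor with values in `L`: on vector fields which are regular along the prime
divisor `P` of `X` its values have order at least `- L P` along `P`. For `X` smooth and `L` a divisor
these are the elements of `H⁰ (X, (Ω¹) ^ ⊗ m ⊗ O (L))`. `FunSec y L f`: `f` is a section of `L`,
`div f + L ≥ 0`.

`PreservesLS y L σ φ` (`Pool/Agent/N133/TB/TwD.lean`): the birational automorphism of `X` given by the
automorphism `φ` of `K` is an isomorphism in codimension one (it permutes the prime divisors of `X`),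
preserves `L` up to linear equivalence and `σ` up to a factor. `pullPl`, `pushD`
(`Pool/Agent/TH466/QG/Equiv.lean`) and `pullT` (`Pool/Agent/N133/TB/Inv.lean`) are the actions of `φ`
on valuations, vector fields and tensors.
-/

set_option autoImplicit false

namespace Pool.Agent.Results.MP_a405d2_ag.IsotropicDistribution

open FF Pool.Agent.Y172 Pool.Agent.Y174 Pool.Agent.TH466.QG Pool.Agent.N133.TB

/-- Let `X` be a normal projective variety of dimension `n ≥ 1` with `r K_X ∼ 0`, `r ≥ 1`, and with a
holomorphic 2-tensor `σ` which is nondegenerate at the generic point (e.g. a projective hyperkähler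
manifold with its symplectic form). Let `L` be a `ℚ`-divisor on `X` such that there is a nonzero
holomorphic tensor of some degree `m`, `1 ≤ m ≤ M`, with values in `a • L` for some `a`,
`1 ≤ a ≤ A`. Then a multiple `e • L`, `e ≥ 1`, has a nonzero section, or there are distributions
`0 ≠ F ⊂ C` on `X`, `rk F + rk C = n`, `σ (F, C) = σ (C, F) = 0` (so `F` is isotropic, `rk F ≤ n / 2`,
and `C` is the `σ`-orthogonal complement of `F`), such that all holomorphic tensors of degrees
`1, …, M` with values in `a • L`, `a = 1, …, A`, vanish on `C`; and `F` and `C` are invariant under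
all birational automorphisms of `X` which are isomorphisms in codimension one, preserve `L` up to
linear equivalence and `σ` up to a factor. -/
theorem result {K : Type} [Field K] [Algebra ℂ K] {n N : ℕ} {y : Fin (N + 1) → K}
    (hy : NormalModel y) (hn : Algebra.trdeg ℂ K = n) (hn1 : 1 ≤ n) {L : Place ℂ K → ℚ} {r : ℕ}
    (hr : 1 ≤ r) {η : (Fin n → Derivation ℂ K K) → K} (hη : GenBy y n 0 r η) (hη0 : η ≠ 0)
    {σ : MultilinearMap K (fun _ : Fin 2 => Derivation ℂ K K) K} (hσ : IsTensorV y 0 0 σ)
    (hnd : ∀ D, (∀ D', σ ![D, D'] = 0) → D = 0) (M A : ℕ)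
    (hM : ∃ m a : ℕ, 1 ≤ m ∧ m ≤ M ∧ 1 ≤ a ∧ a ≤ A ∧
      ∃ T : MultilinearMap K (fun _ : Fin m => Derivation ℂ K K) K,
        IsTensorV y 0 (a • L) T ∧ T ≠ 0) :
    (∃ e : ℕ, 1 ≤ e ∧ ∃ f, f ≠ 0 ∧ FunSec y (e • L) f) ∨
    ∃ F C : Submodule K (Derivation ℂ K K), F ≠ ⊥ ∧ F ≤ C ∧
      Module.finrank K F + Module.finrank K C = n ∧
      (∀ D ∈ F, ∀ D' ∈ C, σ ![D, D'] = 0 ∧ σ ![D', D] = 0) ∧
      (∀ m a : ℕ, 1 ≤ m → m ≤ M → 1 ≤ a → a ≤ A →
        ∀ T : MultilinearMap K (fun _ : Fin m => Derivation ℂ K K) K, IsTensorV y 0 (a • L) T →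
          ∀ D : Fin m → Derivation ℂ K K, (∀ j, D j ∈ C) → T D = 0) ∧
      ∀ φ : K ≃ₐ[ℂ] K, PreservesLS y L σ φ → ∀ D, (D ∈ F → pushD φ D ∈ F) ∧
        (D ∈ C → pushD φ D ∈ C) :=
  tw_inv' hy hn hn1 hr hη hη0 hσ hnd M A hM

end Pool.Agent.Results.MP_a405d2_ag.IsotropicDistribution
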